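import Pool.Agent.V8H45.NR.Sim

/-!
# Multihead automata as programs: the program
-/

namespace Pool.Agent.V8H45.NR

open Finset Relation Pool.Agent.V8H38.RM Pool.Agent.V8H47.MH

variable {n : ℕ}

/-- the NOT gate -/
def notGate (i : ℕ) : Node n := Node.any [i] fun l => !(l.headD false)

/-- the program with one layer of NOT gates and one reachability gate -/
def oneReach (E : List (ℕ × ℕ × ℕ)) : Prog n :=
  ⟨List.ofFn (fun i : Fin n => Node.input i) ++ (List.ofFn (fun i : Fin n => notGate i.val) ++
    [Node.const true, Node.reach E]), 2 * n + 1⟩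

theorem oneReach_length (E : List (ℕ × ℕ × ℕ)) : (oneReach (n := n) E).nodes.length = 2 * n + 2 := by
  simp [oneReach]
  omega

theorem node_input (E : List (ℕ × ℕ × ℕ)) (i : ℕ) (h : i < n) :
    (oneReach (n := n) E).nodes[i]? = some (Node.input ⟨i, h⟩) := by
  unfold oneReach
  rw [List.getElem?_append_left (by simpa using h)]
  simp [h]

theorem node_not (E : List (ℕ × ℕ × ℕ)) (i : ℕ) (h : i < n) :
    (oneReach (n := n) E).nodes[n + i]? = some (notGate i) := by
  unfold oneReach
  rw [List.getElem?_append_right (by simp), List.getElem?_append_left (by simpa using h)]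
  simp [h]

theorem node_const (E : List (ℕ × ℕ × ℕ)) :
    (oneReach (n := n) E).nodes[2 * n]? = some (Node.const true) := by
  unfold oneReach
  rw [List.getElem?_append_right (by simp; omega), List.getElem?_append_right (by simp; omega)]
  simp only [List.length_ofFn]
  have : 2 * n - n - n = 0 := by omega
  rw [this]
  rfl

theorem node_reach (E : List (ℕ × ℕ × ℕ)) :
    (oneReach (n := n) E).nodes[2 * n + 1]? = some (Node.reach E) := by
  unfold oneReach
  rw [List.getElem?_append_right (by simp; omega), List.getElem?_append_right (by simp; omega)]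
  simp only [List.length_ofFn]
  have : 2 * n + 1 - n - n = 1 := by omega
  rw [this]
  rfl

theorem val_some {C : Prog n} {i : ℕ} {g : Node n} (h : C.nodes[i]? = some g) (x : Fin n → Bool) :
    val C x i = g.eval x fun k => if k < i then val C x k else false := by
  obtain ⟨hi, hg⟩ := List.getElem?_eq_some_iff.1 h
  rw [val_eq _ _ _ hi, hg]

theorem val_oneReach (E : List (ℕ × ℕ × ℕ)) (x : Fin n → Bool) (l : ℕ) (hl : l < 2 * n + 1) :
    val (oneReach E) x l = nv x l := by
  rcases Nat.lt_or_ge l n with h1 | h1
  · rw [val_some (node_input E l h1)]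
    unfold nv
    rw [dif_pos h1]
    rfl
  · rcases Nat.lt_or_ge l (2 * n) with h2 | h2
    · obtain ⟨i, rfl⟩ : ∃ i, l = n + i := ⟨l - n, by omega⟩
      have hi : i < n := by omega
      rw [val_some (node_not E i hi)]
      have h3 : val (oneReach E) x i = x ⟨i, hi⟩ := by
        rw [val_some (node_input E i hi)]
        rfl
      unfold nv notGate
      rw [dif_neg (by omega)]
      have h4 : n + i - n = i := by omega
      simp only [h4, hi, dif_pos, Node.eval, List.map_cons, List.map_nil, List.headD_cons]
      rw [if_pos (by omega), h3]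
    · have h3 : l = 2 * n := by omega
      subst h3
      rw [val_some (node_const E), nv_true]
      rfl

theorem eval_oneReach (E : List (ℕ × ℕ × ℕ)) (hE : ∀ q ∈ E, q.2.2 < 2 * n + 1)
    (x : Fin n → Bool) : (oneReach E).eval x = true ↔ Path E (nv x) 0 1 := by
  have h0 : (oneReach E).eval x = val (oneReach E) x (2 * n + 1) := rfl
  rw [h0, val_some (node_reach E)]
  simp only [Node.eval, decide_eq_true_eq]
  have h : ∀ q ∈ E, (if q.2.2 < 2 * n + 1 then val (oneReach E) x q.2.2 else false) =
      nv x q.2.2 := by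
    intro q hq
    rw [if_pos (hE q hq), val_oneReach E x _ (hE q hq)]
  exact ⟨path_congr h, path_congr fun q hq => (h q hq).symm⟩

/-- the layers -/
def lev1 (n : ℕ) (i : ℕ) : ℕ := if i < n then 0 else 1

theorem wires_oneReach (E : List (ℕ × ℕ × ℕ)) (i : ℕ) (h : i < (oneReach (n := n) E).nodes.length)
    (k : ℕ) (hk : k ∈ ((oneReach (n := n) E).nodes[i]).wires) : n ≤ i ∧ k < n := by
  rw [oneReach_length] at h
  rcases Nat.lt_or_ge i n with h1 | h1
  · have := node_input E i h1
    rw [List.getElem?_eq_some_iff] at this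
    obtain ⟨_, hg⟩ := this
    rw [hg] at hk
    simp [Node.wires] at hk
  · refine ⟨h1, ?_⟩
    rcases Nat.lt_or_ge i (2 * n) with h2 | h2
    · obtain ⟨j, rfl⟩ : ∃ j, i = n + j := ⟨i - n, by omega⟩
      have := node_not (n := n) E j (by omega)
      rw [List.getElem?_eq_some_iff] at this
      obtain ⟨_, hg⟩ := this
      rw [hg] at hk
      simp [Node.wires, notGate] at hk
      omega
    · rcases Nat.lt_or_ge i (2 * n + 1) with h3 | h3
      · have h4 : i = 2 * n := by omega
        subst h4
        have := node_const (n := n) E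
        rw [List.getElem?_eq_some_iff] at this
        obtain ⟨_, hg⟩ := this
        rw [hg] at hk
        simp [Node.wires] at hk
      · have h4 : i = 2 * n + 1 := by omega
        subst h4
        have := node_reach (n := n) E
        rw [List.getElem?_eq_some_iff] at this
        obtain ⟨_, hg⟩ := this
        rw [hg] at hk
        simp [Node.wires] at hk

theorem layered_oneReach (E : List (ℕ × ℕ × ℕ)) : (oneReach (n := n) E).Layered (lev1 n) := by
  intro i h
  constructor
  · intro k hk hki
    unfold lev1
    rw [oneReach_length] at h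
    split_ifs with h1 h2
    · exact le_rfl
    · omega
    · omega
    · exact le_rfl
  · intro k hk _
    obtain ⟨h1, h2⟩ := wires_oneReach E i h k hk
    unfold lev1
    rw [if_pos h2, if_neg (by omega)]
    omega

theorem combos_oneReach (E : List (ℕ × ℕ × ℕ)) : (oneReach (n := n) E).combos (lev1 n) ≤ n + 1 := by
  classical
  unfold Prog.combos
  have hsub : (Finset.range (oneReach (n := n) E).nodes.length).image (lev1 n) ⊆ {0, 1} := by
    intro j hj
    obtain ⟨i, _, rfl⟩ := Finset.mem_image.1 hj
    unfold lev1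
    split_ifs <;> simp
  refine (Finset.prod_le_prod_of_subset_of_one_le' hsub fun j _ _ => by omega).trans ?_
  rw [Finset.prod_pair (by omega)]
  have h0 : (oneReach (n := n) E).cut (lev1 n) 0 = ∅ := by
    rw [Finset.eq_empty_iff_forall_notMem]
    intro k hk
    obtain ⟨i, h, h1, h2, h3⟩ := mem_cut.1 hk
    obtain ⟨h4, -⟩ := wires_oneReach E i h k h3
    unfold lev1 at h2
    rw [if_neg (by omega)] at h2
    omega
  have h1 : ((oneReach (n := n) E).cut (lev1 n) 1).card ≤ n := by
    have : (oneReach (n := n) E).cut (lev1 n) 1 ⊆ Finset.range n := by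
      intro k hk
      obtain ⟨i, h, h1, h2, h3⟩ := mem_cut.1 hk
      obtain ⟨-, h4⟩ := wires_oneReach E i h k h3
      exact Finset.mem_range.2 h4
    have := Finset.card_le_card this
    rwa [Finset.card_range] at this
  rw [h0, Finset.card_empty]
  omega

theorem depth_oneReach (E : List (ℕ × ℕ × ℕ)) :
    (oneReach (n := n) E).depth ≤ (Nat.size E.length + 1) ^ 2 := by
  have hfold : ∀ (l : List ℕ) (b : ℕ), (∀ i, l.getD i 0 ≤ b) → l.foldr max 0 ≤ b := by
    intro l b
    induction l with
    | nil => intro _; exact Nat.zero_le _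
    | cons a l ih =>
      intro h
      rw [List.foldr_cons]
      exact max_le (by simpa using h 0) (ih fun i => by simpa using h (i + 1))
  have hdep : ∀ i, i < 2 * n + 1 → dep (oneReach (n := n) E) i = 0 := by
    intro i hi
    have hlen : i < (oneReach (n := n) E).nodes.length := by rw [oneReach_length]; omega
    rw [dep_eq _ _ hlen]
    rcases Nat.lt_or_ge i n with h1 | h1
    · obtain ⟨_, hg⟩ := List.getElem?_eq_some_iff.1 (node_input E i h1)
      rw [hg]
      rfl
    · rcases Nat.lt_or_ge i (2 * n) with h2 | h2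
      · obtain ⟨j, rfl⟩ : ∃ j, i = n + j := ⟨i - n, by omega⟩
        obtain ⟨_, hg⟩ := List.getElem?_eq_some_iff.1 (node_not (n := n) E j (by omega))
        rw [hg]
        rfl
      · have h4 : i = 2 * n := by omega
        subst h4
        obtain ⟨_, hg⟩ := List.getElem?_eq_some_iff.1 (node_const (n := n) E)
        rw [hg]
        rfl
  have hall : ∀ i, dep (oneReach (n := n) E) i ≤ (Nat.size E.length + 1) ^ 2 := by
    intro i
    rcases Nat.lt_or_ge i (2 * n + 1) with h1 | h1
    · rw [hdep i h1]
      exact Nat.zero_le _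
    · rcases Nat.lt_or_ge i (2 * n + 2) with h2 | h2
      · have h3 : i = 2 * n + 1 := by omega
        subst h3
        have hlen : 2 * n + 1 < (oneReach (n := n) E).nodes.length := by
          rw [oneReach_length]; omega
        rw [dep_eq _ _ hlen]
        obtain ⟨_, hg⟩ := List.getElem?_eq_some_iff.1 (node_reach (n := n) E)
        rw [hg]
        simp only [Node.depth]
        have : (E.map fun e => if e.2.2 < 2 * n + 1 then dep (oneReach (n := n) E) e.2.2 else
            0).foldr max 0 ≤ 0 := by
          refine hfold _ _ fun i => ?_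
          rcases Nat.lt_or_ge i E.length with h4 | h4
          · rw [List.getD_eq_getElem _ _ (by simpa using h4), List.getElem_map]
            split_ifs with h5
            · rw [hdep _ h5]
            · exact le_rfl
          · rw [List.getD_eq_default _ _ (by simpa using h4)]
        omega
      · unfold dep
        rw [List.getD_eq_default]
        · exact Nat.zero_le _
        · rw [depths_run, run_length, oneReach_length]
          exact h2
  exact hfold _ _ hall

/-- a numbering of a finite type with two prescribed numbers -/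
theorem exists_code (V : Type) [Finite V] (s t : V) (hst : s ≠ t) :
    ∃ code : V → ℕ, Function.Injective code ∧ code s = 0 ∧ code t = 1 := by
  classical
  obtain ⟨f, hf⟩ := exists_injective_nat V
  refine ⟨fun v => if v = s then 0 else if v = t then 1 else f v + 2, ?_, by simp, by
    simp [hst.symm]⟩
  intro a b h
  simp only at h
  by_cases h1 : a = s
  · by_cases h2 : b = s
    · rw [h1, h2]
    · rw [if_pos h1, if_neg h2] at h
      split_ifs at h
  · by_cases h2 : b = s
    · rw [if_neg h1, if_pos h2] at h
      split_ifs at h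
    · rw [if_neg h1, if_neg h2] at h
      by_cases h3 : a = t
      · by_cases h4 : b = t
        · rw [h3, h4]
        · rw [if_pos h3, if_neg h4] at h
          omega
      · by_cases h4 : b = t
        · rw [if_neg h3, if_pos h4] at h
          omega
        · rw [if_neg h3, if_neg h4] at h
          exact hf (by omega)

theorem path_code {V : Type} {code : V → ℕ} (hc : Function.Injective code)
    {E : List (ℕ × ℕ × ℕ)} {Edg : V → V → ℕ → Prop}
    (hE : ∀ a b l, (a, b, l) ∈ E ↔ ∃ u w, Edg u w l ∧ code u = a ∧ code w = b)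
    (v : ℕ → Bool) (s t : V) :
    Path E v (code s) (code t) ↔ ReflTransGen (fun u w => ∃ l, Edg u w l ∧ v l = true) s t := by
  constructor
  · intro h
    have : ∀ b, Path E v (code s) b → ∃ w, code w = b ∧
        ReflTransGen (fun u w => ∃ l, Edg u w l ∧ v l = true) s w := by
      intro b hb
      unfold Path at hb
      induction hb with
      | refl => exact ⟨s, rfl, ReflTransGen.refl⟩
      | tail _ hs ih =>
        obtain ⟨w, hw, hr⟩ := ih
        obtain ⟨l, hl, hv⟩ := hs
        obtain ⟨u, w', he, hu, hw'⟩ := (hE _ _ _).1 hl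
        have : u = w := hc (hu.trans hw.symm)
        subst this
        exact ⟨w', hw', hr.tail ⟨l, he, hv⟩⟩
    obtain ⟨w, hw, hr⟩ := this _ h
    rwa [hc hw] at hr
  · intro h
    unfold Path
    induction h with
    | refl => exact ReflTransGen.refl
    | tail _ hs ih =>
      obtain ⟨l, he, hv⟩ := hs
      exact ih.tail ⟨l, (hE _ _ _).2 ⟨_, _, he, rfl, rfl⟩, hv⟩

theorem size_le (m e : ℕ) (h : m ≤ 2 ^ e) : Nat.size m ≤ e + 1 := by
  rw [Nat.size_le]
  exact h.trans_lt (Nat.pow_lt_pow_right (by norm_num) (by omega))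

/-- **Nondeterministic multihead automata are programs with one reachability gate and one layer of
NOT gates.** -/
theorem sim {k : ℕ} {L : Language Letter} (hL : L ∈ twoNFA k Letter) :
    ∃ c : ℕ, ∀ (n : ℕ) (p : List (Letter ⊕ Fin n)),
      ∃ (C : Prog n) (lev : ℕ → ℕ), C.Layered lev ∧ C.combos lev ≤ n + 1 ∧
        C.depth ≤ (c * Nat.log 2 (n + p.length + 2)) ^ 2 ∧
        ∀ x, C.eval x = true ↔ fill p x ∈ L := by
  classical
  obtain ⟨M, rfl⟩ := hL
  have := M.finQ
  obtain ⟨K, hK⟩ : ∃ K, K = Nat.card M.Q * (1 + Nat.card (Sym Letter) ^ k * (k + 1)) + 1 :=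
    ⟨_, rfl⟩
  refine ⟨2 * K + 4 * k + 8, fun n p => ?_⟩
  obtain ⟨hfin, hcard⟩ := finite_vx M.Q k p.length
  have : Fintype (Vx M.Q k p.length) := Fintype.ofFinite _
  obtain ⟨code, hinj, hs, ht⟩ := exists_code (Vx M.Q k p.length) (Vx.cfg M.init fun _ => 0) Vx.acc
    (by simp)
  set F : Finset (Vx M.Q k p.length × Vx M.Q k p.length × Fin (2 * n + 1)) :=
    Finset.univ.filter fun q => Ed M p q.1 q.2.1 q.2.2.val with hF
  set E : List (ℕ × ℕ × ℕ) := F.toList.map fun q => (code q.1, code q.2.1, q.2.2.val) with hEdef
  have hE : ∀ a b l, (a, b, l) ∈ E ↔ ∃ u w, Ed M p u w l ∧ code u = a ∧ code w = b := by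
    intro a b l
    rw [hEdef, List.mem_map]
    constructor
    · rintro ⟨⟨u, w, l'⟩, h1, h2⟩
      rw [Finset.mem_toList, hF, Finset.mem_filter] at h1
      simp only [Prod.mk.injEq] at h2
      obtain ⟨h2, h3, h4⟩ := h2
      refine ⟨u, w, ?_, h2, h3⟩
      rw [← h4]
      exact h1.2
    · rintro ⟨u, w, h1, h2, h3⟩
      refine ⟨(u, w, ⟨l, h1.lt⟩), ?_, by simp [h2, h3]⟩
      rw [Finset.mem_toList, hF, Finset.mem_filter]
      exact ⟨Finset.mem_univ _, h1⟩
  refine ⟨oneReach E, lev1 n, layered_oneReach E, combos_oneReach E,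
    (depth_oneReach E).trans (Nat.pow_le_pow_left ?_ 2), fun x => ?_⟩
  · -- the number of edges
    obtain ⟨e, he⟩ : ∃ e, e = Nat.log 2 (n + p.length + 2) := ⟨_, rfl⟩
    rw [← he]
    have he1 : n + p.length + 2 < 2 ^ (e + 1) := by
      rw [he]
      exact Nat.lt_pow_succ_log_self (by norm_num) _
    have he0 : 1 ≤ e := by
      rw [he]
      exact Nat.log_pos (by norm_num) (by omega)
    have hlen : E.length ≤ Nat.card (Vx M.Q k p.length) * (Nat.card (Vx M.Q k p.length) *
        (2 * n + 1)) := by
      rw [hEdef, List.length_map, Finset.length_toList]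
      refine (Finset.card_filter_le _ _).trans ?_
      rw [Finset.card_univ, Fintype.card_prod, Fintype.card_prod, Fintype.card_fin,
        Nat.card_eq_fintype_card]
    have hV : Nat.card (Vx M.Q k p.length) ≤ 2 ^ (K + (e + 1) * k) := by
      calc Nat.card (Vx M.Q k p.length) ≤ K * (p.length + 2) ^ k := by rw [hK]; exact hcard
        _ ≤ 2 ^ K * (2 ^ (e + 1)) ^ k := Nat.mul_le_mul Nat.lt_two_pow_self.le
            (Nat.pow_le_pow_left (by omega) k)
        _ = 2 ^ (K + (e + 1) * k) := by rw [← pow_mul, ← pow_add]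
    have hn : 2 * n + 1 ≤ 2 ^ (e + 2) := by
      rw [pow_succ]
      omega
    have hlen2 : E.length ≤ 2 ^ (2 * (K + (e + 1) * k) + (e + 2)) := by
      calc E.length ≤ 2 ^ (K + (e + 1) * k) * (2 ^ (K + (e + 1) * k) * 2 ^ (e + 2)) :=
            hlen.trans (Nat.mul_le_mul hV (Nat.mul_le_mul hV hn))
        _ = _ := by rw [← pow_add, ← pow_add]; congr 1; ring
    have h1 := size_le _ _ hlen2
    have h2 : 2 * (K + (e + 1) * k) + (e + 2) + 1 + 1 ≤ (2 * K + 4 * k + 8) * e := by
      nlinarith [Nat.zero_le K, Nat.zero_le k, Nat.mul_le_mul_left K he0,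
        Nat.mul_le_mul_left k he0]
    omega
  · have hlt : ∀ q ∈ E, q.2.2 < 2 * n + 1 := by
      rintro ⟨a, b, l⟩ hq
      obtain ⟨u, w, h1, -, -⟩ := (hE a b l).1 hq
      exact h1.lt
    have h1 := path_code hinj hE (nv x) (Vx.cfg M.init fun _ => 0) Vx.acc
    rw [hs, ht] at h1
    rw [eval_oneReach E hlt, ← gr_iff, h1]
    rfl

end Pool.Agent.V8H45.NR
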