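import Pool.Agent.V8H45.NR.Defs
import Pool.Agent.V8H38.RM.Frozen

/-!
# The monotone depth of reachability
-/

namespace Pool.Agent.V8H45.NR

open Finset Function Pool.Agent.V8H38.RM

theorem mdep_congr {ι : Type} {d : ℕ} {f g : (ι → Bool) → Bool} (h : MDep d f)
    (hfg : ∀ x, f x = g x) : MDep d g := by
  have : f = g := funext hfg
  rwa [← this]

/-- a shortest path is short -/
theorem short_path (r : ℕ → ℕ → Prop) (T : Finset ℕ) (hT : ∀ a b, r a b → b ∈ T) {a b : ℕ}
    (h : Relation.ReflTransGen r a b) :
    ∃ (l : ℕ) (f : ℕ → ℕ), l ≤ T.card ∧ f 0 = a ∧ f l = b ∧ ∀ i < l, r (f i) (f (i + 1)) := by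
  classical
  have hex : ∃ l, ∃ f : ℕ → ℕ, f 0 = a ∧ f l = b ∧ ∀ i < l, r (f i) (f (i + 1)) := by
    induction h with
    | refl => exact ⟨0, fun _ => a, rfl, rfl, fun i hi => absurd hi (by omega)⟩
    | @tail b c _ hbc ih =>
      obtain ⟨l, f, h1, h2, h3⟩ := ih
      refine ⟨l + 1, fun i => if i ≤ l then f i else c, by simp [h1], by simp, ?_⟩
      intro i hi
      by_cases h4 : i < l
      · have h5 : i ≤ l := by omega
        have h6 : i + 1 ≤ l := by omega
        simp only [h5, h6, if_true]
        exact h3 i h4
      · have h5 : i = l := by omega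
        subst h5
        simp only [le_refl, if_true]
        rw [if_neg (by omega), h2]
        exact hbc
  have hmin := Nat.find_spec hex
  obtain ⟨f, h1, h2, h3⟩ := hmin
  set l := Nat.find hex with hl
  refine ⟨l, f, ?_, h1, h2, h3⟩
  have hinj : Set.InjOn (fun i => f (i + 1)) (Finset.range l : Set ℕ) := by
    intro i hi j hj hij
    rw [Finset.mem_coe, Finset.mem_range] at hi hj
    by_contra hne
    wlog hlt : i < j generalizing i j
    · exact this hj hi hij.symm (fun h => hne h.symm) (by omega)
    have hij' : f (i + 1) = f (j + 1) := hij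
    -- cut out the piece between `i + 1` and `j + 1`
    refine Nat.find_min hex (m := l - (j - i)) (by rw [← hl]; omega)
      ⟨fun t => if t ≤ i then f t else f (t + (j - i)), by simp [h1], ?_, ?_⟩
    · simp only
      by_cases h4 : l - (j - i) ≤ i
      · exfalso; omega
      · rw [if_neg h4]
        rw [show l - (j - i) + (j - i) = l by omega]
        exact h2
    · intro t ht
      simp only
      by_cases h4 : t ≤ i
      · rw [if_pos h4]
        by_cases h5 : t + 1 ≤ i
        · rw [if_pos h5]
          exact h3 t (by omega)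
        · rw [if_neg h5]
          have h6 : t = i := by omega
          subst h6
          rw [show t + 1 + (j - t) = j + 1 by omega, ← hij']
          exact h3 t (by omega)
      · rw [if_neg h4, if_neg (by omega)]
        rw [show t + 1 + (j - i) = t + (j - i) + 1 by omega]
        exact h3 _ (by omega)
  have hsub : (Finset.range l).image (fun i => f (i + 1)) ⊆ T := by
    intro z hz
    obtain ⟨i, hi, rfl⟩ := Finset.mem_image.1 hz
    exact hT _ _ (h3 i (Finset.mem_range.1 hi))
  have := Finset.card_le_card hsub
  rwa [Finset.card_image_of_injOn hinj, Finset.card_range] at this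

/-- reachability in at most `2 ^ j` steps -/
def RR (r : ℕ → ℕ → Prop) (T : Finset ℕ) : ℕ → ℕ → ℕ → Prop
  | 0, a, b => a = b ∨ r a b
  | j + 1, a, b => ∃ w ∈ insert a T, RR r T j a w ∧ RR r T j w b

theorem RR_sound {r : ℕ → ℕ → Prop} {T : Finset ℕ} (j : ℕ) {a b : ℕ} (h : RR r T j a b) :
    Relation.ReflTransGen r a b := by
  induction j generalizing a b with
  | zero =>
    rcases h with h | h
    · rw [h]
    · exact Relation.ReflTransGen.single h
  | succ j ih =>
    obtain ⟨w, _, h1, h2⟩ := h
    exact (ih h1).trans (ih h2)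

theorem RR_complete {r : ℕ → ℕ → Prop} {T : Finset ℕ} (hT : ∀ a b, r a b → b ∈ T) (j : ℕ)
    (f : ℕ → ℕ) (s l : ℕ) (hl : l ≤ 2 ^ j) (hf : ∀ i < l, r (f (s + i)) (f (s + i + 1))) :
    RR r T j (f s) (f (s + l)) := by
  induction j generalizing s l with
  | zero =>
    rw [pow_zero] at hl
    rcases Nat.lt_or_ge l 1 with h | h
    · have : l = 0 := by omega
      subst this
      exact Or.inl rfl
    · have : l = 1 := by omega
      subst this
      exact Or.inr (hf 0 (by omega))
  | succ j ih =>
    rw [pow_succ] at hl
    have h1 := ih s (l / 2) (by omega) (fun i hi => hf i (by omega))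
    have h2 := ih (s + l / 2) (l - l / 2) (by omega) (fun i hi => by
      have := hf (l / 2 + i) (by omega)
      rwa [← add_assoc] at this)
    refine ⟨f (s + l / 2), ?_, h1, ?_⟩
    · rcases Nat.eq_zero_or_pos (l / 2) with h0 | h0
      · rw [h0, add_zero]
        exact Finset.mem_insert_self _ _
      · refine Finset.mem_insert_of_mem ?_
        have := hT _ _ (hf (l / 2 - 1) (by omega))
        rwa [show s + (l / 2 - 1) + 1 = s + l / 2 by omega] at this
    · rwa [show s + l / 2 + (l - l / 2) = s + l by omega] at h2

open Classical in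
theorem mdep_RR {ι : Type} {D e : ℕ} (E : List (ℕ × ℕ × ℕ)) (F : ℕ → (ι → Bool) → Bool)
    (hF : ∀ q ∈ E, MDep D (F q.2.2)) (he : E.length + 1 ≤ 2 ^ e) (j a b : ℕ) :
    MDep (D + e + j * (e + 1)) (fun y => decide (RR (fun c d => ∃ k, (c, d, k) ∈ E ∧ F k y = true)
      (E.map fun q => q.2.1).toFinset j a b)) := by
  induction j generalizing a b with
  | zero =>
    by_cases hab : a = b
    · have : (fun y => decide (RR (fun c d => ∃ k, (c, d, k) ∈ E ∧ F k y = true)
          (E.map fun q => q.2.1).toFinset 0 a b)) = fun _ => true := by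
        funext y
        rw [decide_eq_true_eq]
        exact Or.inl hab
      rw [this]
      exact MDep.const _ _
    · have h := MDep.orSet (D := D) (s := e) (((E.filter fun q => q.1 = a ∧ q.2.1 = b).map
        fun q => q.2.2).toFinset) F (by
          intro k hk
          rw [List.mem_toFinset, List.mem_map] at hk
          obtain ⟨q, hq, rfl⟩ := hk
          exact hF q (List.mem_filter.1 hq).1) (by
          refine (List.toFinset_card_le _).trans ?_
          rw [List.length_map]
          have := List.length_filter_le (fun q : ℕ × ℕ × ℕ => decide (q.1 = a ∧ q.2.1 = b)) E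
          omega)
      rw [zero_mul, add_zero]
      refine mdep_congr h fun y => ?_
      · refine decide_eq_decide.2 (Iff.symm ?_)
        constructor
        · rintro (h0 | ⟨k, hk, hv⟩)
          · exact absurd h0 hab
          · refine ⟨k, ?_, hv⟩
            rw [List.mem_toFinset, List.mem_map]
            exact ⟨(a, b, k), List.mem_filter.2 ⟨hk, by simp⟩, rfl⟩
        · rintro ⟨k, hk, hv⟩
          rw [List.mem_toFinset, List.mem_map] at hk
          obtain ⟨⟨c, d, k'⟩, hq, rfl⟩ := hk
          rw [List.mem_filter] at hq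
          obtain ⟨hq1, hq2⟩ := hq
          simp only [decide_eq_true_eq] at hq2
          obtain ⟨rfl, rfl⟩ := hq2
          exact Or.inr ⟨k', hq1, hv⟩
  | succ j ih =>
    have h := MDep.orSet (D := D + e + j * (e + 1) + 1) (s := e)
      (insert a (E.map fun q => q.2.1).toFinset)
      (fun w y => decide (RR (fun c d => ∃ k, (c, d, k) ∈ E ∧ F k y = true)
        (E.map fun q => q.2.1).toFinset j a w) && decide (RR (fun c d => ∃ k, (c, d, k) ∈ E ∧
          F k y = true) (E.map fun q => q.2.1).toFinset j w b)) (by
        intro w _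
        exact MDep.and (ih a w) (ih w b)) (by
        refine (Finset.card_insert_le _ _).trans (le_trans ?_ he)
        refine Nat.add_le_add_right ?_ 1
        refine (List.toFinset_card_le _).trans ?_
        rw [List.length_map])
    have e1 : D + e + j * (e + 1) + 1 + e = D + e + (j + 1) * (e + 1) := by ring
    rw [e1] at h
    refine mdep_congr h fun y => ?_
    · refine decide_eq_decide.2 (Iff.symm ?_)
      constructor
      · rintro ⟨w, hw, h1, h2⟩
        exact ⟨w, hw, by simp [h1, h2]⟩
      · rintro ⟨w, hw, h1⟩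
        rw [Bool.and_eq_true, decide_eq_true_eq, decide_eq_true_eq] at h1
        exact ⟨w, hw, h1.1, h1.2⟩

open Classical in
/-- **The monotone depth of reachability** -/
theorem mdep_reach {ι : Type} {D : ℕ} (E : List (ℕ × ℕ × ℕ)) (F : ℕ → (ι → Bool) → Bool)
    (hF : ∀ q ∈ E, MDep D (F q.2.2)) :
    MDep (D + (Nat.size E.length + 1) ^ 2) (fun y => decide (Path E (fun k => F k y) 0 1)) := by
  set e := Nat.size E.length with hedef
  have he : E.length + 1 ≤ 2 ^ e := Nat.lt_size_self E.length
  have h := (mdep_RR E F hF he e 0 1).mono (show D + e + e * (e + 1) ≤ D + (e + 1) ^ 2 by nlinarith)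
  have e1 : (fun y => decide (RR (fun c d => ∃ k, (c, d, k) ∈ E ∧ F k y = true)
      (E.map fun q => q.2.1).toFinset e 0 1)) = fun y => decide (Path E (fun k => F k y) 0 1) := by
    funext y
    refine decide_eq_decide.2 ⟨fun h => RR_sound _ h, fun h => ?_⟩
    have hT : ∀ a b, (∃ k, (a, b, k) ∈ E ∧ F k y = true) → b ∈ (E.map fun q => q.2.1).toFinset := by
      rintro a b ⟨k, hk, _⟩
      rw [List.mem_toFinset, List.mem_map]
      exact ⟨_, hk, rfl⟩
    obtain ⟨l, f, h1, h2, h3, h4⟩ := short_path _ _ hT h
    have h5 : l ≤ 2 ^ e := by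
      have := List.toFinset_card_le (E.map fun q => q.2.1)
      rw [List.length_map] at this
      omega
    have h6 := RR_complete (r := fun c d => ∃ k, (c, d, k) ∈ E ∧ F k y = true) hT e f 0 l h5
      (fun i hi => by rw [zero_add]; exact h4 i hi)
    rw [zero_add, h2, h3] at h6
    exact h6
  rw [e1] at h
  exact h

end Pool.Agent.V8H45.NR
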