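import Pool.Agent.V8H38.RM.Defs

/-!
# Programs with reachability gates and arbitrary gates, in layers
-/

namespace Pool.Agent.V8H45.NR

/-- A node of a program with `n` inputs: an input variable, a constant, a reachability gate, or a
gate that applies an arbitrary function to any number of nodes. A reachability gate is a directed
graph on the natural numbers, given by the list of its edges; the edge `(a, b, k)` leads from `a`
to `b` and is present if the node number `k` has the value one. The natural numbers `k` are the
numbers (counted from zero) of nodes. -/
inductive Node (n : ℕ) : Type
  | input (i : Fin n)
  | const (b : Bool)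
  | reach (E : List (ℕ × ℕ × ℕ))
  | any (l : List ℕ) (φ : List Bool → Bool)

/-- There is a path from `a` to `b` along present edges. -/
def Path (E : List (ℕ × ℕ × ℕ)) (v : ℕ → Bool) (a b : ℕ) : Prop :=
  Relation.ReflTransGen (fun c d => ∃ k, (c, d, k) ∈ E ∧ v k = true) a b

namespace Node

variable {n : ℕ}

open Classical in
/-- The value of a node, given the input `x` and the values `v` of the nodes it reads. A
reachability gate has the value one if there is a path from `0` to `1`. -/
noncomputable def eval (x : Fin n → Bool) (v : ℕ → Bool) : Node n → Bool
  | input i => x i
  | const b => b
  | reach E => decide (Path E v 0 1)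
  | any l φ => φ (l.map v)

/-- the nodes read by a reachability gate -/
def ins : Node n → List ℕ
  | reach E => E.map fun e => e.2.2
  | _ => []

/-- the nodes read by an arbitrary gate -/
def wires : Node n → List ℕ
  | any l _ => l
  | _ => []

/-- The depth of a node, given the depths of the earlier nodes: for a reachability gate with `m`
edges, the maximal depth of the nodes it reads plus the square of one plus the length of the binary
expansion of `m`; zero for all other nodes. -/
def depth (v : ℕ → ℕ) : Node n → ℕ
  | reach E => (E.map fun e => v e.2.2).foldr max 0 + (Nat.size E.length + 1) ^ 2
  | _ => 0

end Node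

/-- A program with `n` inputs: the list of its nodes, in an order in which every gate comes
after the nodes it reads, and the number of the output node. -/
structure Prog (n : ℕ) : Type where
  /-- the nodes -/
  nodes : List (Node n)
  /-- the number of the output node -/
  out : ℕ

/-- The list of the values of all nodes of a list of nodes (a reference to a node that is not
earlier reads `false`). -/
noncomputable def vals {n : ℕ} (x : Fin n → Bool) (l : List (Node n)) : List Bool :=
  l.foldl (fun v g => v ++ [g.eval x fun k => v.getD k false]) []

/-- The list of the depths of all nodes. -/
def depths {n : ℕ} (l : List (Node n)) : List ℕ :=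
  l.foldl (fun v g => v ++ [g.depth fun k => v.getD k 0]) []

namespace Prog

variable {n : ℕ}

/-- The value of the output node. -/
noncomputable def eval (C : Prog n) (x : Fin n → Bool) : Bool := (vals x C.nodes).getD C.out false

/-- The maximal depth of the nodes. -/
def depth (C : Prog n) : ℕ := (depths C.nodes).foldr max 0

/-- The function `lev` is a division of the nodes into layers `0, 1, 2, ...`: a reachability gate
reads nodes of its own layer or of lower layers, and an arbitrary gate reads nodes of lower
layers. -/
def Layered (C : Prog n) (lev : ℕ → ℕ) : Prop :=
  ∀ (i : ℕ) (h : i < C.nodes.length),
    (∀ k ∈ (C.nodes[i]).ins, k < i → lev k ≤ lev i) ∧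
      ∀ k ∈ (C.nodes[i]).wires, k < i → lev k < lev i

open Classical in
/-- The set of the nodes that are read by arbitrary gates of layer `j`. -/
noncomputable def cut (C : Prog n) (lev : ℕ → ℕ) (j : ℕ) : Finset ℕ :=
  (Finset.range C.nodes.length).filter fun k =>
    ∃ (i : ℕ) (h : i < C.nodes.length), k < i ∧ lev i = j ∧ k ∈ (C.nodes[i]).wires

/-- The product over all layers of `w + 1`, where `w` is the number of nodes that are read by
arbitrary gates of the layer. -/
noncomputable def combos (C : Prog n) (lev : ℕ → ℕ) : ℕ :=
  ∏ j ∈ (Finset.range C.nodes.length).image lev, ((C.cut lev j).card + 1)

open Classical in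
/-- The probability, under the distribution with the weights `D`, that the output of the program
is correct for the predicate `f`. -/
noncomputable def agree (D : (Fin n → Bool) → ℝ) (C : Prog n) (f : (Fin n → Bool) → Prop) : ℝ :=
  ∑ x, if (C.eval x = true ↔ f x) then D x else 0

end Prog

end Pool.Agent.V8H45.NR
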