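import Pool.Agent.V8H45.NR.Defs

/-!
# Lists computed from left to right
-/

namespace Pool.Agent.V8H45.NR

variable {α β : Type}

/-- a list computed from left to right -/
def run (d : β) (st : (ℕ → β) → ℕ → α → β) (l : List α) : List β :=
  l.foldl (fun v g => v ++ [st (fun k => v.getD k d) v.length g]) []

variable (d : β) (st : (ℕ → β) → ℕ → α → β)

theorem run_append (l : List α) (g : α) :
    run d st (l ++ [g]) = run d st l ++ [st (fun k => (run d st l).getD k d) (run d st l).length g] := by
  simp [run]

theorem run_length (l : List α) : (run d st l).length = l.length := by
  induction l using List.reverseRecOn with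
  | nil => rfl
  | append_singleton l g ih => rw [run_append]; simp [ih]

theorem run_getD_append (l l' : List α) (k : ℕ) (hk : k < l.length) :
    (run d st (l ++ l')).getD k d = (run d st l).getD k d := by
  induction l' using List.reverseRecOn with
  | nil => simp
  | append_singleton l' g ih =>
    rw [← List.append_assoc, run_append, List.getD_append, ih]
    rw [run_length, List.length_append]
    omega

theorem run_eq (l : List α) (i : ℕ) (h : i < l.length) :
    (run d st l).getD i d = st (fun k => if k < i then (run d st l).getD k d else d) i (l[i]) := by
  have h1 : l = (l.take i ++ [l[i]]) ++ l.drop (i + 1) := by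
    rw [List.take_append_getElem, List.take_append_drop]
  have h2 : (l.take i).length = i := by
    rw [List.length_take]; omega
  have h3 : ∀ k, (run d st (l.take i)).getD k d = if k < i then (run d st l).getD k d else d := by
    intro k
    split_ifs with hk
    · conv_rhs => rw [← List.take_append_drop i l]
      rw [run_getD_append _ _ _ _ _ (by omega)]
    · rw [List.getD_eq_default]
      rw [run_length]
      omega
  have h4 : (run d st l).getD i d = (run d st (l.take i ++ [l[i]])).getD i d := by
    conv_lhs => rw [h1]
    rw [run_getD_append]
    rw [List.length_append, h2]
    simp
  rw [h4, run_append, List.getD_append_right _ _ _ _ (by rw [run_length]; omega), run_length, h2]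
  simp only [Nat.sub_self, List.getD_cons_zero]
  rw [funext h3]

theorem run_ge (l : List α) (i : ℕ) (h : l.length ≤ i) : (run d st l).getD i d = d := by
  rw [List.getD_eq_default]
  rw [run_length]
  exact h

end Pool.Agent.V8H45.NR
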