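import Pool.Agent.V8H45.NR.Fold
import Pool.Agent.V8H45.NR.Reach

/-!
# The clock of a layered program
-/

namespace Pool.Agent.V8H45.NR

open Finset Pool.Agent.V8H38.RM

variable {n : ℕ}

/-! ### Values -/

/-- the value of a node -/
noncomputable def val (C : Prog n) (x : Fin n → Bool) (k : ℕ) : Bool := (vals x C.nodes).getD k false

theorem vals_run (x : Fin n → Bool) (l : List (Node n)) :
    vals x l = run false (fun v _ g => g.eval x v) l := rfl

theorem val_eq (C : Prog n) (x : Fin n → Bool) (i : ℕ) (h : i < C.nodes.length) :
    val C x i = (C.nodes[i]).eval x fun k => if k < i then val C x k else false := by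
  unfold val
  rw [vals_run, run_eq _ _ _ _ h]

theorem val_ge (C : Prog n) (x : Fin n → Bool) (i : ℕ) (h : C.nodes.length ≤ i) :
    val C x i = false := by
  unfold val
  rw [vals_run, run_ge _ _ _ _ h]

/-- arbitrary gates -/
def isFar : Node n → Bool
  | Node.any _ _ => true
  | _ => false

/-- the value of a node on the input `y`, if the arbitrary gates keep the values they have on the
input `x` -/
noncomputable def mval (C : Prog n) (x y : Fin n → Bool) (k : ℕ) : Bool :=
  (run false (fun v i g => if isFar g = true then val C x i else g.eval y v) C.nodes).getD k false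

theorem mval_eq (C : Prog n) (x y : Fin n → Bool) (i : ℕ) (h : i < C.nodes.length) :
    mval C x y i = if isFar (C.nodes[i]) = true then val C x i else
      (C.nodes[i]).eval y fun k => if k < i then mval C x y k else false := by
  unfold mval
  rw [run_eq _ _ _ _ h]

theorem mval_ge (C : Prog n) (x y : Fin n → Bool) (i : ℕ) (h : C.nodes.length ≤ i) :
    mval C x y i = false := by
  unfold mval
  rw [run_ge _ _ _ _ h]

theorem path_mono {E : List (ℕ × ℕ × ℕ)} {v w : ℕ → Bool} (h : ∀ k, v k = true → w k = true)
    {a b : ℕ} (hp : Path E v a b) : Path E w a b := by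
  unfold Path at hp ⊢
  refine Relation.ReflTransGen.mono ?_ _ _ hp
  rintro c d ⟨k, hk, hv⟩
  exact ⟨k, hk, h k hv⟩

theorem path_congr {E : List (ℕ × ℕ × ℕ)} {v w : ℕ → Bool} (h : ∀ q ∈ E, v q.2.2 = w q.2.2)
    {a b : ℕ} (hp : Path E v a b) : Path E w a b := by
  unfold Path at hp ⊢
  refine Relation.ReflTransGen.mono ?_ _ _ hp
  rintro c d ⟨k, hk, hv⟩
  exact ⟨k, hk, by rw [← h _ hk]; exact hv⟩

theorem mval_mono (C : Prog n) (x : Fin n → Bool) {y z : Fin n → Bool}
    (hyz : ∀ i, y i = true → z i = true) (k : ℕ) (h : mval C x y k = true) :
    mval C x z k = true := by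
  induction k using Nat.strong_induction_on with
  | _ k ih =>
    by_cases hk : k < C.nodes.length
    · rw [mval_eq _ _ _ _ hk] at h ⊢
      split_ifs at h ⊢ with h1
      · exact h
      · cases hg : C.nodes[k] with
        | input i =>
          rw [hg] at h
          exact hyz i h
        | const b =>
          rw [hg] at h
          exact h
        | reach E =>
          rw [hg] at h
          simp only [Node.eval, decide_eq_true_eq] at h ⊢
          refine path_mono (fun j hj => ?_) h
          split_ifs at hj ⊢ with h2
          · exact ih j h2 hj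
        | any l φ =>
          rw [hg] at h1
          exact absurd rfl h1
    · rw [mval_ge _ _ _ _ (by omega)] at h
      exact absurd h (by decide)

/-- evaluation of a node depends only on the nodes it reads -/
theorem node_eval_congr (g : Node n) (x : Fin n → Bool) (v v' : ℕ → Bool)
    (h : ∀ k, k ∈ g.ins ∨ k ∈ g.wires → v k = v' k) : g.eval x v = g.eval x v' := by
  cases g with
  | input j => rfl
  | const b => rfl
  | reach E =>
    have h' : ∀ q ∈ E, v q.2.2 = v' q.2.2 := fun q hq =>
      h _ (Or.inl (List.mem_map.2 ⟨q, hq, rfl⟩))
    simp only [Node.eval]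
    exact decide_eq_decide.2 ⟨path_congr h', path_congr fun q hq => (h' q hq).symm⟩
  | any l φ =>
    simp only [Node.eval]
    congr 1
    exact List.map_congr_left fun k hk => h k (Or.inr hk)

theorem node_eval_input (g : Node n) (h : isFar g = true) (x y : Fin n → Bool) (v : ℕ → Bool) :
    g.eval x v = g.eval y v := by
  cases g <;> simp_all [isFar, Node.eval]

/-- at `x` itself the monotone program has the same values -/
theorem mval_self (C : Prog n) (x : Fin n → Bool) (k : ℕ) : mval C x x k = val C x k := by
  induction k using Nat.strong_induction_on with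
  | _ k ih =>
    by_cases h : k < C.nodes.length
    · rw [mval_eq _ _ _ _ h, val_eq _ _ _ h]
      split_ifs with h1
      · rfl
      · refine node_eval_congr _ _ _ _ fun j _ => ?_
        split_ifs with hj
        · exact ih j hj
        · rfl
    · rw [mval_ge _ _ _ _ (by omega), val_ge _ _ _ (by omega)]

variable {C : Prog n} {lev : ℕ → ℕ}

/-- the state of layer `j` is the same at `x` and `y` -/
def Same (C : Prog n) (lev : ℕ → ℕ) (x y : Fin n → Bool) (j : ℕ) : Prop :=
  ∀ k ∈ C.cut lev j, val C y k = val C x k

theorem mem_cut {j k : ℕ} : k ∈ C.cut lev j ↔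
    ∃ (i : ℕ) (h : i < C.nodes.length), k < i ∧ lev i = j ∧ k ∈ (C.nodes[i]).wires := by
  unfold Prog.cut
  rw [Finset.mem_filter, Finset.mem_range]
  constructor
  · rintro ⟨-, h⟩; exact h
  · rintro ⟨i, h, h1, h2⟩
    exact ⟨h1.trans h, i, h, h1, h2⟩

theorem cut_lev (hL : C.Layered lev) {j k : ℕ} (hk : k ∈ C.cut lev j) : lev k < j := by
  obtain ⟨i, h, h1, h2, h3⟩ := mem_cut.1 hk
  rw [← h2]
  exact (hL i h).2 k h3 h1

/-- far gates of a layer with the same state -/
theorem far_same {x y : Fin n → Bool} {i : ℕ} (h : i < C.nodes.length)
    (hfar : isFar (C.nodes[i]) = true) (hs : Same C lev x y (lev i)) :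
    val C y i = val C x i := by
  rw [val_eq _ _ _ h, val_eq _ _ _ h, node_eval_input _ hfar y x]
  refine node_eval_congr _ _ _ _ fun k hk => ?_
  split_ifs with hki
  · rcases hk with hk | hk
    · exfalso
      revert hk hfar
      cases C.nodes[i] <;> simp [isFar, Node.ins]
    · exact hs k (mem_cut.2 ⟨i, h, hki, rfl, hk⟩)
  · rfl

/-- if the states of the layers below `j` are the same, the values of the nodes below layer `j`
are computed by the monotone circuit -/
theorem val_eq_mval (hL : C.Layered lev) {x y : Fin n → Bool} {j : ℕ}
    (hs : ∀ i < j, Same C lev x y i) (k : ℕ) (hk : lev k < j) : val C y k = mval C x y k := by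
  induction k using Nat.strong_induction_on with
  | _ k ih =>
    by_cases h : k < C.nodes.length
    · rw [mval_eq _ _ _ _ h]
      split_ifs with h1
      · exact far_same h h1 (hs _ hk)
      · rw [val_eq _ _ _ h]
        refine node_eval_congr _ _ _ _ fun i hi => ?_
        split_ifs with hik
        · refine ih i hik ?_
          rcases hi with hi | hi
          · exact ((hL k h).1 i hi hik).trans_lt hk
          · exact ((hL k h).2 i hi hik).trans hk
        · rfl
    · rw [mval_ge _ _ _ _ (by omega), val_ge _ _ _ (by omega)]

/-- number of ones in the state of layer `j` -/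
noncomputable def ones (C : Prog n) (lev : ℕ → ℕ) (j : ℕ) (x : Fin n → Bool) : ℕ :=
  ((C.cut lev j).filter fun k => val C x k = true).card

theorem ones_le (j : ℕ) (x : Fin n → Bool) : ones C lev j x ≤ (C.cut lev j).card :=
  Finset.card_filter_le _ _

/-- the layers below `j` as a number -/
noncomputable def clk (C : Prog n) (lev : ℕ → ℕ) (x : Fin n → Bool) : ℕ → ℕ
  | 0 => 0
  | j + 1 => clk C lev x j * ((C.cut lev j).card + 1) + ones C lev j x

theorem clk_lt (x : Fin n → Bool) (j : ℕ) :
    clk C lev x j + 1 ≤ ∏ i ∈ Finset.range j, ((C.cut lev i).card + 1) := by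
  induction j with
  | zero => simp [clk]
  | succ j ih =>
    rw [Finset.prod_range_succ, clk]
    have := ones_le (C := C) (lev := lev) j x
    calc clk C lev x j * ((C.cut lev j).card + 1) + ones C lev j x + 1 ≤
        (clk C lev x j + 1) * ((C.cut lev j).card + 1) := by
          rw [add_mul]; omega
      _ ≤ _ := Nat.mul_le_mul_right _ ih

theorem clk_step (hL : C.Layered lev) {x y : Fin n → Bool} (hxy : ∀ i, x i = true → y i = true)
    (j : ℕ) : ((∀ i < j, Same C lev x y i) ∧ clk C lev x j = clk C lev y j) ∨
      (clk C lev x j < clk C lev y j ∧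
        ∃ i < j, (∀ i' < i, Same C lev x y i') ∧ ¬ Same C lev x y i) := by
  induction j with
  | zero => left; exact ⟨by simp, rfl⟩
  | succ j ih =>
    rcases ih with ⟨h1, h2⟩ | ⟨h1, i, hi, h2, h3⟩
    · have hsub : ((C.cut lev j).filter fun k => val C x k = true) ⊆
          ((C.cut lev j).filter fun k => val C y k = true) := by
        intro k hk
        rw [Finset.mem_filter] at hk ⊢
        refine ⟨hk.1, ?_⟩
        rw [val_eq_mval hL h1 k (cut_lev hL hk.1)]
        refine mval_mono C x hxy k ?_
        rw [mval_self]
        exact hk.2
      by_cases hs : Same C lev x y j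
      · left
        refine ⟨?_, ?_⟩
        · intro i hi
          rcases Nat.lt_succ_iff_lt_or_eq.1 hi with h | h
          · exact h1 i h
          · rw [h]; exact hs
        · rw [clk, clk, h2]
          congr 1
          unfold ones
          congr 1
          apply Finset.filter_congr
          intro k hk
          rw [hs k hk]
      · right
        refine ⟨?_, j, Nat.lt_succ_self j, h1, hs⟩
        rw [clk, clk, h2]
        have : ones C lev j x < ones C lev j y := by
          refine Finset.card_lt_card ?_
          refine Finset.ssubset_iff_subset_ne.2 ⟨hsub, ?_⟩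
          intro heq
          apply hs
          intro k hk
          have h4 : (k ∈ (C.cut lev j).filter fun k => val C x k = true) ↔
              (k ∈ (C.cut lev j).filter fun k => val C y k = true) := by rw [heq]
          simp only [Finset.mem_filter, hk, true_and] at h4
          cases hx : val C x k <;> cases hy : val C y k <;> simp_all
        omega
    · right
      refine ⟨?_, i, by omega, h2, h3⟩
      rw [clk, clk]
      have h4 := ones_le (C := C) (lev := lev) j x
      calc clk C lev x j * ((C.cut lev j).card + 1) + ones C lev j x <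
          (clk C lev x j + 1) * ((C.cut lev j).card + 1) := by rw [add_mul]; omega
        _ ≤ clk C lev y j * ((C.cut lev j).card + 1) := Nat.mul_le_mul_right _ h1
        _ ≤ _ := Nat.le_add_right _ _

/-- a bound for the layers -/
def top (C : Prog n) (lev : ℕ → ℕ) : ℕ := (Finset.range (C.nodes.length + C.out + 1)).sup lev + 1

theorem lev_lt_top {k : ℕ} (hk : k < C.nodes.length + C.out + 1) : lev k < top C lev := by
  unfold top
  have := Finset.le_sup (f := lev) (Finset.mem_range.2 hk)
  omega

/-- the clock -/
noncomputable def clock (C : Prog n) (lev : ℕ → ℕ) (x : Fin n → Bool) : ℕ :=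
  clk C lev x (top C lev) * 2 + (if C.eval x = true then 1 else 0)

theorem prod_top : ∏ i ∈ Finset.range (top C lev), ((C.cut lev i).card + 1) = C.combos lev := by
  classical
  unfold Prog.combos
  symm
  refine Finset.prod_subset ?_ ?_
  · intro j hj
    obtain ⟨i, hi, rfl⟩ := Finset.mem_image.1 hj
    rw [Finset.mem_range] at hi ⊢
    exact lev_lt_top (by omega)
  · intro j _ hj
    have : C.cut lev j = ∅ := by
      rw [Finset.eq_empty_iff_forall_notMem]
      intro k hk
      obtain ⟨i, h, h1, h2, h3⟩ := mem_cut.1 hk
      exact hj (Finset.mem_image.2 ⟨i, Finset.mem_range.2 h, h2⟩)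
    rw [this]; simp

theorem clock_lt (x : Fin n → Bool) : clock C lev x + 1 ≤ 2 * C.combos lev := by
  unfold clock
  have := clk_lt (C := C) (lev := lev) x (top C lev)
  rw [prod_top] at this
  split_ifs <;> omega

/-- all nodes read by far gates -/
noncomputable def cuts (C : Prog n) (lev : ℕ → ℕ) : Finset ℕ :=
  (Finset.range (top C lev)).biUnion (C.cut lev)

theorem prod_ge_sum {ι : Type} [DecidableEq ι] (s : Finset ι) (f : ι → ℕ) :
    ∑ i ∈ s, f i + 1 ≤ ∏ i ∈ s, (f i + 1) := by
  induction s using Finset.induction_on with
  | empty => simp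
  | insert i s hi ih =>
    rw [Finset.sum_insert hi, Finset.prod_insert hi, add_mul, one_mul]
    have h1 : 1 ≤ ∏ x ∈ s, (f x + 1) := by omega
    have h2 : f i * 1 ≤ f i * ∏ x ∈ s, (f x + 1) := Nat.mul_le_mul_left _ h1
    omega

theorem card_cuts : (cuts C lev).card + 1 ≤ C.combos lev := by
  rw [← prod_top]
  refine le_trans ?_ (prod_ge_sum _ _)
  exact Nat.add_le_add_right Finset.card_biUnion_le _

/-- the nodes whose change is noticed -/
noncomputable def watch (C : Prog n) (lev : ℕ → ℕ) (x : Fin n → Bool) : Finset ℕ :=
  (insert C.out (cuts C lev)).filter fun k => val C x k = false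

theorem card_watch (x : Fin n → Bool) : (watch C lev x).card ≤ C.combos lev := by
  refine (Finset.card_filter_le _ _).trans ((Finset.card_insert_le _ _).trans ?_)
  exact card_cuts

theorem watch_self (x : Fin n → Bool) : ∀ k ∈ watch C lev x, mval C x x k = false := by
  intro k hk
  rw [mval_self]
  exact (Finset.mem_filter.1 hk).2

/-- **Clock and watched nodes.** -/
theorem clock_watch (hL : C.Layered lev) {x y : Fin n → Bool}
    (hxy : ∀ i, x i = true → y i = true) :
    (clock C lev x < clock C lev y ∧ ∃ k ∈ watch C lev x, mval C x y k = true) ∨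
    (clock C lev x = clock C lev y ∧ (∀ k ∈ watch C lev x, mval C x y k = false) ∧
      C.eval x = C.eval y) := by
  rcases clk_step hL hxy (top C lev) with ⟨h1, h2⟩ | ⟨h1, i, hi, h2, h3⟩
  · have hv : ∀ k, k < C.nodes.length + C.out + 1 → val C y k = mval C x y k := fun k hk =>
      val_eq_mval hL h1 k (lev_lt_top hk)
    have hout : val C y C.out = mval C x y C.out := hv _ (by omega)
    have hmono : val C x C.out = true → val C y C.out = true := by
      intro h
      rw [hout]
      refine mval_mono C x hxy _ ?_
      rw [mval_self]; exact h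
    have hev : ∀ z, C.eval z = val C z C.out := fun z => rfl
    by_cases hc : C.eval x = C.eval y
    · right
      refine ⟨?_, ?_, hc⟩
      · unfold clock
        rw [h2, hc]
      · intro k hk
        unfold watch at hk
        rw [Finset.mem_filter, Finset.mem_insert] at hk
        obtain ⟨hk1, hk2⟩ := hk
        rcases hk1 with hk1 | hk1
        · rw [hk1, ← hout, ← hev, ← hc, hev, ← hk1]
          exact hk2
        · unfold cuts at hk1
          rw [Finset.mem_biUnion] at hk1
          obtain ⟨j, hj, hkj⟩ := hk1
          have hkN : k < C.nodes.length := by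
            obtain ⟨i, h, h3, -⟩ := mem_cut.1 hkj
            omega
          rw [← hv k (by omega), h1 j (Finset.mem_range.1 hj) k hkj]
          exact hk2
    · left
      have hx : C.eval x = false := by
        by_contra h
        rw [Bool.not_eq_false] at h
        apply hc
        rw [h, hev]
        exact (hmono (by rw [← hev]; exact h)).symm
      have hy : C.eval y = true := by
        by_contra h
        rw [Bool.not_eq_true] at h
        exact hc (by rw [hx, h])
      refine ⟨?_, C.out, ?_, ?_⟩
      · unfold clock
        rw [h2, hx, hy]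
        simp
      · unfold watch
        rw [Finset.mem_filter]
        exact ⟨Finset.mem_insert_self _ _, hx⟩
      · rw [← hout]
        exact hy
  · left
    refine ⟨?_, ?_⟩
    · unfold clock
      split_ifs <;> omega
    · unfold Same at h3
      push Not at h3
      obtain ⟨k, hk, hne⟩ := h3
      have h4 : val C y k = mval C x y k := val_eq_mval hL h2 k (cut_lev hL hk)
      have h5 : val C x k = false := by
        by_contra h
        rw [Bool.not_eq_false] at h
        apply hne
        rw [h, h4]
        refine mval_mono C x hxy _ ?_
        rw [mval_self]; exact h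
      have h6 : val C y k = true := by
        by_contra h
        rw [Bool.not_eq_true] at h
        exact hne (by rw [h, h5])
      refine ⟨k, ?_, ?_⟩
      · unfold watch
        rw [Finset.mem_filter]
        refine ⟨Finset.mem_insert_of_mem ?_, h5⟩
        unfold cuts
        rw [Finset.mem_biUnion]
        exact ⟨i, Finset.mem_range.2 hi, hk⟩
      · rw [← h4]; exact h6


end Pool.Agent.V8H45.NR
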