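import Pool.Agent.V8H45.NR.Layers

/-!
# Programs with frozen arbitrary gates: monotone depth
-/

namespace Pool.Agent.V8H45.NR

open Finset Function Pool.Agent.V8H38.RM

variable {n : ℕ}

/-- the depth of a node -/
def dep (C : Prog n) (k : ℕ) : ℕ := (depths C.nodes).getD k 0

theorem depths_run (l : List (Node n)) : depths l = run 0 (fun v _ g => g.depth v) l := rfl

theorem dep_eq (C : Prog n) (i : ℕ) (h : i < C.nodes.length) :
    dep C i = (C.nodes[i]).depth fun k => if k < i then dep C k else 0 := by
  unfold dep
  rw [depths_run, run_eq _ _ _ _ h]

theorem dep_le (C : Prog n) (k : ℕ) : dep C k ≤ C.depth := le_foldr_max _ k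

theorem le_foldr_max' (l : List ℕ) (a : ℕ) (ha : a ∈ l) : a ≤ l.foldr max 0 := by
  obtain ⟨i, hi, rfl⟩ := List.getElem_of_mem ha
  have := le_foldr_max l i
  rwa [List.getD_eq_getElem _ _ hi] at this

/-- nodes of the frozen program -/
theorem mdep_mval (C : Prog n) (x : Fin n → Bool) (k : ℕ) :
    MDep (dep C k) (fun y => mval C x y k) := by
  induction k using Nat.strong_induction_on with
  | _ k ih =>
    by_cases h : k < C.nodes.length
    · have h1 : (fun y => mval C x y k) = fun y => if isFar (C.nodes[k]) = true then val C x k else
          (C.nodes[k]).eval y fun j => if j < k then mval C x y j else false :=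
        funext fun y => mval_eq C x y k h
      rw [h1, dep_eq C k h]
      have h2 : ∀ j, MDep (if j < k then dep C j else 0)
          (fun y => if j < k then mval C x y j else false) := by
        intro j
        by_cases hj : j < k
        · simp only [hj, if_true]
          exact ih j hj
        · simp only [hj, if_false]
          exact MDep.const 0 false
      cases hg : C.nodes[k] with
      | input i => simpa [isFar, Node.eval] using MDep.var _ i
      | const b => simpa [isFar, Node.eval] using MDep.const _ b
      | reach E =>
        have h3 := mdep_reach (D := (E.map fun e => if e.2.2 < k then dep C e.2.2 else 0).foldr max 0)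
          E (fun j y => if j < k then mval C x y j else false) (fun q hq =>
            (h2 q.2.2).mono (le_foldr_max' _ _ (List.mem_map.2 ⟨q, hq, rfl⟩)))
        refine mdep_congr h3 fun y => ?_
        simp only [isFar, Node.eval, Bool.false_eq_true, if_false]
      | any l φ => simpa [isFar] using MDep.const _ (val C x k)
    · have h1 : (fun y => mval C x y k) = fun _ => false :=
        funext fun y => mval_ge C x y k (by omega)
      rw [h1]
      exact MDep.const _ _

/-- **The noticer**: for inputs above `x`, a monotone function of small depth tells whether the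
clock has moved; if not, then the output is the same. -/
theorem exists_notice {C : Prog n} {lev : ℕ → ℕ} (hL : C.Layered lev) {s : ℕ}
    (hs : C.combos lev ≤ 2 ^ s) (x : Fin n → Bool) :
    ∃ H : (Fin n → Bool) → Bool, MDep (C.depth + s) H ∧
      ∀ y, (∀ i, x i = true → y i = true) →
        (H y = true ∧ clock C lev x < clock C lev y) ∨
        (H y = false ∧ clock C lev x = clock C lev y ∧ C.eval x = C.eval y) := by
  refine ⟨fun y => decide (∃ k ∈ watch C lev x, mval C x y k = true),
    MDep.orSet _ _ (fun k _ => (mdep_mval C x k).mono (dep_le C k))
      ((card_watch x).trans hs), ?_⟩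
  intro y hy
  rcases clock_watch hL hy with ⟨h5, h6⟩ | ⟨h5, h6, h7⟩
  · left
    exact ⟨by simpa using h6, h5⟩
  · right
    refine ⟨?_, h5, h7⟩
    simp only [decide_eq_false_iff_not, not_exists, not_and, Bool.not_eq_true]
    exact h6

end Pool.Agent.V8H45.NR
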