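import Pool.Agent.V8H45.NR.Notice
import Pool.Agent.V8H47.MH.Basic

/-!
# Multihead automata as programs with one reachability gate
-/

namespace Pool.Agent.V8H45.NR

open Finset Relation Pool.Agent.V8H38.RM Pool.Agent.V8H47.MH

/-- the vertices of the graph of an automaton -/
inductive Vx (Q : Type) (k N : ℕ)
  | cfg (q : Q) (pos : Fin k → Fin (N + 2))
  | chk (q : Q) (pos : Fin k → Fin (N + 2)) (a : Fin k → Sym Letter) (j : Fin (k + 1))
  | acc

theorem finite_letter : Finite Letter := by
  refine Finite.of_injective (β := (Bool ⊕ Bool) ⊕ Bool) (fun l => match l with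
    | Letter.bit b => Sum.inl (Sum.inl b)
    | Letter.gate b => Sum.inl (Sum.inr b)
    | Letter.fst => Sum.inr true
    | Letter.snd => Sum.inr false) ?_
  intro a b h
  cases a <;> cases b <;> simp_all

theorem finite_sym : Finite (Sym Letter) := by
  have := finite_letter
  refine Finite.of_injective (β := Letter ⊕ Bool) (fun l => match l with
    | Sym.left => Sum.inr true
    | Sym.letter b => Sum.inl b
    | Sym.right => Sum.inr false) ?_
  intro a b h
  cases a <;> cases b <;> simp_all

theorem finite_vx (Q : Type) (k N : ℕ) [Finite Q] : Finite (Vx Q k N) ∧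
    Nat.card (Vx Q k N) ≤ (Nat.card Q * (1 + Nat.card (Sym Letter) ^ k * (k + 1)) + 1) *
      (N + 2) ^ k := by
  have := finite_sym
  let f : Vx Q k N → ((Q × (Fin k → Fin (N + 2))) ⊕
      (Q × (Fin k → Fin (N + 2)) × (Fin k → Sym Letter) × Fin (k + 1))) ⊕ Unit := fun v =>
    match v with
    | Vx.cfg q pos => Sum.inl (Sum.inl (q, pos))
    | Vx.chk q pos a j => Sum.inl (Sum.inr (q, pos, a, j))
    | Vx.acc => Sum.inr ()
  have hf : Function.Injective f := by
    intro a b h
    cases a <;> cases b <;> simp_all [f]
  refine ⟨Finite.of_injective f hf, ?_⟩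
  have h1 := Nat.card_le_card_of_injective f hf
  rw [Nat.card_sum, Nat.card_sum, Nat.card_prod, Nat.card_prod, Nat.card_prod, Nat.card_prod,
    Nat.card_fun, Nat.card_fun, Nat.card_unique (α := Unit), Nat.card_eq_fintype_card (α := Fin (N + 2)),
    Nat.card_eq_fintype_card (α := Fin (k + 1)), Nat.card_eq_fintype_card (α := Fin k),
    Fintype.card_fin, Fintype.card_fin, Fintype.card_fin] at h1
  refine h1.trans ?_
  have h2 : 1 ≤ (N + 2) ^ k := Nat.one_le_pow _ _ (by omega)
  calc Nat.card Q * (N + 2) ^ k + Nat.card Q * ((N + 2) ^ k * (Nat.card (Sym Letter) ^ k * (k + 1)))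
      + 1 ≤ Nat.card Q * (N + 2) ^ k + Nat.card Q * ((N + 2) ^ k *
        (Nat.card (Sym Letter) ^ k * (k + 1))) + (N + 2) ^ k := Nat.add_le_add_left h2 _
    _ = _ := by ring

section Sim

variable {n k : ℕ} (M : FA Letter (Fin k)) (p : List (Letter ⊕ Fin n))

open Classical in
/-- the node that tells whether a position carries a symbol -/
noncomputable def lab (r : ℕ) (s : Sym Letter) : Option ℕ :=
  match r with
  | 0 => if s = Sym.left then some (2 * n) else none
  | i + 1 => match p[i]? with
    | none => if s = Sym.right then some (2 * n) else none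
    | some (Sum.inl c) => if s = Sym.letter c then some (2 * n) else none
    | some (Sum.inr v) => if s = Sym.letter (Letter.bit true) then some v.val else
        if s = Sym.letter (Letter.bit false) then some (n + v.val) else none

/-- the values of the nodes of the program -/
def nv (x : Fin n → Bool) (l : ℕ) : Bool :=
  if h : l < n then x ⟨l, h⟩ else if h : l - n < n then !(x ⟨l - n, h⟩) else true

theorem nv_true (x : Fin n → Bool) : nv x (2 * n) = true := by
  unfold nv
  rw [dif_neg (by omega), dif_neg (by omega)]

theorem nv_pos (x : Fin n → Bool) (v : Fin n) : nv x v.val = x v := by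
  unfold nv
  rw [dif_pos v.isLt]

theorem nv_neg (x : Fin n → Bool) (v : Fin n) : nv x (n + v.val) = !(x v) := by
  unfold nv
  rw [dif_neg (by omega)]
  have h : n + v.val - n = v.val := by omega
  simp only [h, v.isLt, dif_pos]

theorem lab_le {r : ℕ} {s : Sym Letter} {l : ℕ} (h : lab p r s = some l) : l < 2 * n + 1 := by
  unfold lab at h
  cases r with
  | zero =>
    simp only at h
    split_ifs at h
    rw [Option.some.injEq] at h
    omega
  | succ i =>
    simp only at h
    cases hp : p[i]? with
    | none =>
      rw [hp] at h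
      simp only at h
      split_ifs at h
      rw [Option.some.injEq] at h
      omega
    | some c =>
      rw [hp] at h
      cases c with
      | inl c =>
        simp only at h
        split_ifs at h
        rw [Option.some.injEq] at h
        omega
      | inr v =>
        simp only at h
        have := v.isLt
        split_ifs at h <;> rw [Option.some.injEq] at h <;> omega

theorem lab_iff (x : Fin n → Bool) (r : ℕ) (s : Sym Letter) :
    symAt (fill p x) r = s ↔ ∃ l, lab p r s = some l ∧ nv x l = true := by
  unfold lab
  cases r with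
  | zero =>
    simp only [symAt]
    constructor
    · intro h
      refine ⟨2 * n, by rw [if_pos h.symm], nv_true x⟩
    · rintro ⟨l, h, -⟩
      split_ifs at h with h1
      exact h1.symm
  | succ i =>
    have hfill : (fill p x)[i]? = (p[i]?).map (Sum.elim id fun i => Letter.bit (x i)) := by
      unfold fill
      rw [List.getElem?_map]
    simp only [symAt, hfill]
    cases hp : p[i]? with
    | none =>
      simp only [Option.map_none]
      constructor
      · intro h
        exact ⟨2 * n, by rw [if_pos h.symm], nv_true x⟩
      · rintro ⟨l, h, -⟩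
        split_ifs at h with h1
        exact h1.symm
    | some c =>
      cases c with
      | inl c =>
        simp only [Option.map_some, Sum.elim_inl, id]
        constructor
        · intro h
          exact ⟨2 * n, by rw [if_pos h.symm], nv_true x⟩
        · rintro ⟨l, h, -⟩
          split_ifs at h with h1
          exact h1.symm
      | inr v =>
        simp only [Option.map_some, Sum.elim_inr]
        constructor
        · intro h
          cases hx : x v with
          | true =>
            rw [hx] at h
            exact ⟨v.val, by rw [if_pos h.symm], by rw [nv_pos, hx]⟩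
          | false =>
            rw [hx] at h
            refine ⟨n + v.val, ?_, by rw [nv_neg, hx]; rfl⟩
            rw [if_neg (by rw [← h]; simp), if_pos h.symm]
        · rintro ⟨l, h, hl⟩
          split_ifs at h with h1 h2
          · rw [Option.some.injEq] at h
            rw [← h, nv_pos] at hl
            rw [hl, h1]
          · rw [Option.some.injEq] at h
            rw [← h, nv_neg] at hl
            have : x v = false := by simpa using hl
            rw [this, h2]

/-- the edges of the graph of an automaton -/
inductive Ed : Vx M.Q k p.length → Vx M.Q k p.length → ℕ → Prop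
  | guess (q pos a) : Ed (Vx.cfg q pos) (Vx.chk q pos a 0) (2 * n)
  | test (q pos a) (h : Fin k) (l : ℕ) (hl : lab p (pos h) (a h) = some l) :
      Ed (Vx.chk q pos a h.castSucc) (Vx.chk q pos a h.succ) l
  | go (q pos a q') (d : Fin k → Dir) (pos') (hs : (q', d) ∈ M.step q a)
      (hp : ∀ h, (pos' h).val = (d h).move p.length (pos h).val) :
      Ed (Vx.chk q pos a (Fin.last k)) (Vx.cfg q' pos') (2 * n)
  | fin (q pos) (hq : q ∈ M.acc) : Ed (Vx.cfg q pos) Vx.acc (2 * n)

theorem Ed.lt {u w : Vx M.Q k p.length} {l : ℕ} (h : Ed M p u w l) : l < 2 * n + 1 := by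
  cases h with
  | guess => omega
  | test _ _ _ _ _ hl => exact lab_le p hl
  | go => omega
  | fin => omega

theorem fill_length (x : Fin n → Bool) : (fill p x).length = p.length := by
  unfold fill
  rw [List.length_map]

/-- what a reached vertex means -/
def Inv (x : Fin n → Bool) : Vx M.Q k p.length → Prop
  | Vx.cfg q pos => ReflTransGen (M.Step (fill p x)) M.start ⟨q, fun h => (pos h).val⟩
  | Vx.chk q pos a j => ReflTransGen (M.Step (fill p x)) M.start ⟨q, fun h => (pos h).val⟩ ∧
      ∀ h : Fin k, h.castSucc < j → symAt (fill p x) (pos h).val = a h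
  | Vx.acc => fill p x ∈ M.lang

/-- the graph for an input -/
def Gr (x : Fin n → Bool) (u w : Vx M.Q k p.length) : Prop := ∃ l, Ed M p u w l ∧ nv x l = true

theorem inv_step (x : Fin n → Bool) {u w : Vx M.Q k p.length} (h : Gr M p x u w)
    (hu : Inv M p x u) : Inv M p x w := by
  obtain ⟨l, h, hl⟩ := h
  cases h with
  | guess q pos a => exact ⟨hu, fun h hh => absurd hh (by simp)⟩
  | test q pos a h l hl' =>
    refine ⟨hu.1, fun h' hh' => ?_⟩
    rcases lt_or_eq_of_le (Fin.le_castSucc_iff.2 hh') with h1 | h1
    · exact hu.2 h' h1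
    · have h2 : h' = h := Fin.castSucc_injective _ h1
      subst h2
      exact (lab_iff p x _ _).2 ⟨l, hl', hl⟩
  | go q pos a q' d pos' hs hp =>
    refine ReflTransGen.tail hu.1 ⟨(q', d), ?_, ?_⟩
    · have : (fun h => symAt (fill p x) (pos h).val) = a :=
        funext fun h => hu.2 h (Fin.castSucc_lt_last h)
      simp only
      rw [this]
      exact hs
    · simp only [fill_length]
      ext
      · rfl
      · exact hp _
  | fin q pos hq =>
    exact ⟨_, (M.reach_iff _ _).2 hu, hq⟩

theorem chk_path (x : Fin n → Bool) (q : M.Q) (pos : Fin k → Fin (p.length + 2))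
    (j : Fin (k + 1)) : ReflTransGen (Gr M p x)
      (Vx.chk q pos (fun h => symAt (fill p x) (pos h).val) 0)
      (Vx.chk q pos (fun h => symAt (fill p x) (pos h).val) j) := by
  induction j using Fin.induction with
  | zero => exact ReflTransGen.refl
  | succ h ih =>
    refine ih.tail ?_
    obtain ⟨l, hl, hv⟩ := (lab_iff p x (pos h).val (symAt (fill p x) (pos h).val)).1 rfl
    exact ⟨l, Ed.test q pos _ h l hl, hv⟩

theorem move_lt (N : ℕ) (d : Dir) (r : ℕ) (hr : r < N + 2) : d.move N r < N + 2 := by
  cases d
  · show r - 1 < N + 2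
    omega
  · exact hr
  · show min (r + 1) (N + 1) < N + 2
    omega

theorem cfg_path (x : Fin n → Bool) {c : FCfg M.Q (Fin k)}
    (h : ReflTransGen (M.Step (fill p x)) M.start c) :
    ∃ pos : Fin k → Fin (p.length + 2), (fun h => (pos h).val) = c.pos ∧
      ReflTransGen (Gr M p x) (Vx.cfg M.init fun _ => 0) (Vx.cfg c.q pos) := by
  induction h with
  | refl => exact ⟨fun _ => 0, rfl, ReflTransGen.refl⟩
  | @tail c c' _ hs ih =>
    obtain ⟨pos, h1, h2⟩ := ih
    obtain ⟨⟨q', d⟩, ht, hc'⟩ := hs
    refine ⟨fun h => ⟨(d h).move p.length (pos h).val, move_lt _ _ _ (pos h).isLt⟩, ?_, ?_⟩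
    · rw [hc']
      funext h
      simp only [fill_length, ← h1]
    · have e : c'.q = q' := by rw [hc']
      rw [e]
      have h3 := h2.tail (c := Vx.chk c.q pos (fun h => symAt (fill p x) (pos h).val) 0)
        ⟨2 * n, Ed.guess _ _ _, nv_true x⟩
      have h4 := h3.trans (chk_path M p x c.q pos (Fin.last k))
      refine h4.tail ⟨2 * n, Ed.go _ _ _ q' d _ ?_ (fun _ => rfl), nv_true x⟩
      rw [← h1] at ht
      exact ht

theorem gr_iff (x : Fin n → Bool) :
    ReflTransGen (Gr M p x) (Vx.cfg M.init fun _ => 0) Vx.acc ↔ fill p x ∈ M.lang := by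
  constructor
  · intro h
    have : ∀ w, ReflTransGen (Gr M p x) (Vx.cfg M.init fun _ => 0) w → Inv M p x w := by
      intro w hw
      induction hw with
      | refl => exact ReflTransGen.refl
      | tail _ hs ih => exact inv_step M p x hs ih
    exact this _ h
  · rintro ⟨c, hc, hq⟩
    obtain ⟨pos, -, h⟩ := cfg_path M p x ((M.reach_iff _ _).1 hc)
    exact h.tail ⟨2 * n, Ed.fin _ _ hq, nv_true x⟩

end Sim

end Pool.Agent.V8H45.NR
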